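import Pool.Agent.Lib.MP_72b724_gt.Interfaces

/-!
# MP_72b724_gt, module MARG: properties of the Margulis function in compact length spaces
-/

open scoped ENNReal Topology BigOperators Pointwise
open MeasureTheory Set Filter

namespace Pool.Agent.Lib.MP_72b724_gt.H86

open Pool.Agent.Lib.MP_72b724_gt

noncomputable section

/-! ## Lengths of paths -/

section Len

variable {M : Type} [MetricSpace M]

/-- The length of a path. -/
abbrev len {x y : M} (γ : Path x y) : ℝ≥0∞ := eVariationOn γ univ

theorem len_trans_le {x y z : M} (p : Path x y) (q : Path y z) :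
    len (p.trans q) ≤ len p + len q := by
  set h : unitInterval := ⟨1 / 2, by norm_num, by norm_num⟩ with hh
  have hu : (univ : Set unitInterval) = Iic h ∪ Ici h := by
    ext t
    simp
  have h1 : IsGreatest (Iic h) h := isGreatest_Iic
  have h2 : IsLeast (Ici h) h := isLeast_Ici
  unfold len
  rw [hu, eVariationOn.union _ h1 h2, ← hu]
  refine add_le_add ?_ ?_
  · let φ : unitInterval → unitInterval := fun t => Set.projIcc 0 1 zero_le_one (2 * (t : ℝ))
    have e : EqOn (p.trans q) (p ∘ φ) (Iic h) := by
      intro t ht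
      have ht' : (t : ℝ) ≤ 1 / 2 := ht
      rw [Path.trans_apply, dif_pos ht']
      simp only [Function.comp_apply]
      congr 1
      apply Subtype.ext
      simp only [φ]
      rw [Set.projIcc_of_mem zero_le_one (x := 2 * (t : ℝ)) ⟨by have := t.2.1; linarith, by linarith⟩]
    rw [eVariationOn.congr e]
    exact eVariationOn.comp_le_of_monotoneOn p φ
      (fun a _ b _ hab => Set.monotone_projIcc zero_le_one (by
        have : (a : ℝ) ≤ b := hab
        linarith)) (fun _ _ => mem_univ _)
  · let φ : unitInterval → unitInterval := fun t => Set.projIcc 0 1 zero_le_one (2 * (t : ℝ) - 1)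
    have e : EqOn (p.trans q) (q ∘ φ) (Ici h) := by
      intro t ht
      have ht' : 1 / 2 ≤ (t : ℝ) := ht
      rw [Path.trans_apply]
      simp only [Function.comp_apply]
      split_ifs with h3
      · have h4 : (t : ℝ) = 1 / 2 := le_antisymm h3 ht'
        have h5 : φ t = 0 := by
          simp only [φ, h4]
          norm_num
        rw [h5, q.source]
        have h6 : (⟨2 * (t : ℝ), (unitInterval.mul_pos_mem_iff zero_lt_two).2 ⟨t.2.1, h3⟩⟩ :
            unitInterval) = 1 := by
          apply Subtype.ext
          simp [h4]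
        rw [h6, p.target]
      · congr 1
        apply Subtype.ext
        simp only [φ]
        rw [Set.projIcc_of_mem zero_le_one (x := 2 * (t : ℝ) - 1)
          ⟨by linarith, by have := t.2.2; linarith⟩]
    rw [eVariationOn.congr e]
    exact eVariationOn.comp_le_of_monotoneOn q φ
      (fun a _ b _ hab => Set.monotone_projIcc zero_le_one (by
        have : (a : ℝ) ≤ b := hab
        linarith)) (fun _ _ => mem_univ _)

theorem len_symm_le {x y : M} (p : Path x y) : len p.symm ≤ len p := by
  have : (p.symm : unitInterval → M) = p ∘ unitInterval.symm := by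
    funext t
    rfl
  unfold len
  rw [this]
  exact eVariationOn.comp_le_of_antitoneOn p unitInterval.symm
    (fun a _ b _ hab => unitInterval.symm_le_symm.2 hab) (fun _ _ => mem_univ _)

theorem dist_le_of_len {x y : M} (p : Path x y) {L : ℝ} (hL : 0 ≤ L)
    (h : len p ≤ ENNReal.ofReal L) (s t : unitInterval) : dist (p s) (p t) ≤ L := by
  have h1 : edist (p s) (p t) ≤ ENNReal.ofReal L :=
    (eVariationOn.edist_le p (mem_univ s) (mem_univ t)).trans h
  rw [edist_dist] at h1
  exact (ENNReal.ofReal_le_ofReal_iff hL).1 h1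

end Len

/-! ## Growth -/

section Growth

theorem subexp_of_injective {G H : Type} [Group G] [Group H] (φ : G →* H)
    (hφ : Function.Injective φ) (h : SubexpGrowth H) : SubexpGrowth G := by
  intro S hS b hb
  filter_upwards [h (φ '' S) (hS.image φ) b hb] with k hk
  rw [← Set.image_pow, Set.ncard_image_of_injective _ hφ] at hk
  exact hk

theorem subexp_of_conj {G H : Type} [Group G] [Group H] (φ : G →* H)
    (hφ : Function.Injective φ) (A : Subgroup G) (B : Subgroup H) (hAB : ∀ a ∈ A, φ a ∈ B)
    (h : SubexpGrowth B) : SubexpGrowth A := by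
  refine subexp_of_injective ((φ.comp A.subtype).codRestrict B fun a => hAB a a.2) ?_ h
  intro a b hab
  have := congrArg Subtype.val hab
  exact Subtype.ext (hφ this)

theorem subexp_of_trivial {G : Type} [Group G] (h : ∀ g : G, g = 1) : SubexpGrowth G := by
  intro S _ b hb
  refine Eventually.of_forall fun k => ?_
  have h1 : (S ^ k).ncard ≤ 1 := by
    have h2 : S ^ k ⊆ {1} := fun g _ => h g
    calc (S ^ k).ncard ≤ ({1} : Set G).ncard := Set.ncard_le_ncard h2 (Set.finite_singleton _)
      _ = 1 := Set.ncard_singleton _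
  calc ((S ^ k).ncard : ℝ) ≤ 1 := by exact_mod_cast h1
    _ ≤ b ^ k := one_le_pow₀ hb.le

end Growth

/-! ## Conjugation by a path -/

section Conj

variable {M : Type} [TopologicalSpace M]

open Path.Homotopic (Quotient)

/-- The transport of loops along a path. -/
def conjHom {c x : M} (P : Path.Homotopic.Quotient c x) :
    FundamentalGroup M x →* FundamentalGroup M c where
  toFun g := (P.trans (Path.Homotopic.Quotient.trans g P.symm) : Path.Homotopic.Quotient c c)
  map_one' := by
    change P.trans (Path.Homotopic.Quotient.trans (Path.Homotopic.Quotient.refl x) P.symm) =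
      Path.Homotopic.Quotient.refl c
    rw [Path.Homotopic.Quotient.refl_trans, Path.Homotopic.Quotient.trans_symm]
  map_mul' g h := by
    change P.trans (Path.Homotopic.Quotient.trans (Path.Homotopic.Quotient.trans h g) P.symm) =
      Path.Homotopic.Quotient.trans
        (P.trans (Path.Homotopic.Quotient.trans h P.symm))
        (P.trans (Path.Homotopic.Quotient.trans g P.symm))
    rw [Path.Homotopic.Quotient.trans_assoc, Path.Homotopic.Quotient.trans_assoc,
      Path.Homotopic.Quotient.trans_assoc]
    congr 2
    rw [← Path.Homotopic.Quotient.trans_assoc, Path.Homotopic.Quotient.symm_trans,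
      Path.Homotopic.Quotient.refl_trans]

theorem conjHom_injective {c x : M} (P : Path.Homotopic.Quotient c x) :
    Function.Injective (conjHom P) := by
  rw [injective_iff_map_eq_one]
  intro g hg
  have hg' : P.trans (Path.Homotopic.Quotient.trans g P.symm) =
      Path.Homotopic.Quotient.refl c := hg
  change g = Path.Homotopic.Quotient.refl x
  have h1 : P.symm.trans ((P.trans (Path.Homotopic.Quotient.trans g P.symm)).trans P) =
      Path.Homotopic.Quotient.refl x := by
    rw [hg', Path.Homotopic.Quotient.refl_trans, Path.Homotopic.Quotient.symm_trans]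
  rw [← h1]
  rw [Path.Homotopic.Quotient.trans_assoc, Path.Homotopic.Quotient.trans_assoc,
    Path.Homotopic.Quotient.symm_trans, Path.Homotopic.Quotient.trans_refl,
    ← Path.Homotopic.Quotient.trans_assoc, Path.Homotopic.Quotient.symm_trans,
    Path.Homotopic.Quotient.refl_trans]

end Conj

section Main

variable {M : Type} [MetricSpace M]

theorem mem_shortLoops {x : M} {m : ℝ} (γ : Path x x) (h : len γ ≤ ENNReal.ofReal m) :
    FundamentalGroup.fromPath (Path.Homotopic.Quotient.mk γ) ∈ shortLoops x m :=
  Subgroup.subset_closure ⟨γ, h, rfl⟩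

/-- A path whose length is almost the distance. -/
theorem exists_path (hM : IsLength M) (x y : M) {L : ℝ} (h : dist x y < L) :
    ∃ γ : Path x y, len γ ≤ ENNReal.ofReal L := by
  obtain ⟨γ, hγ⟩ := hM x y (L - dist x y) (by linarith)
  refine ⟨γ, hγ.trans (ENNReal.ofReal_le_ofReal (by linarith))⟩

theorem ball_pathConnected (hM : IsLength M) (x : M) (r : ℝ) (hr : 0 < r) :
    IsPathConnected (Metric.ball x r) := by
  refine ⟨x, Metric.mem_ball_self hr, ?_⟩
  intro y hy
  have hy' : dist x y < r := by rw [dist_comm]; exact hy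
  obtain ⟨L, hL1, hL2⟩ := exists_between hy'
  obtain ⟨γ, hγ⟩ := exists_path hM x y hL1
  refine ⟨γ, fun t => ?_⟩
  have h := dist_le_of_len γ (dist_nonneg.trans hL1.le) hγ t 0
  rw [γ.source] at h
  exact lt_of_le_of_lt h hL2

/-- The statement on short loops at two points. -/
theorem subexp_of_dist (hM : IsLength M) (x y : M) {m m' : ℝ}
    (hm : m' + 2 * dist x y < m) (h : SubexpGrowth (shortLoops x m)) (hm' : 0 ≤ m') :
    SubexpGrowth (shortLoops y m') := by
  obtain ⟨δ, hδ⟩ := exists_path hM x y (L := (m - m') / 2) (by linarith)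
  refine subexp_of_conj (conjHom (Path.Homotopic.Quotient.mk δ)) (conjHom_injective _) _ _
    ?_ h
  intro a ha
  induction ha using Subgroup.closure_induction with
  | mem g hg =>
    obtain ⟨γ, hγ, rfl⟩ := hg
    change FundamentalGroup.fromPath ((Path.Homotopic.Quotient.mk δ).trans
      ((Path.Homotopic.Quotient.mk γ).trans (Path.Homotopic.Quotient.mk δ).symm)) ∈ _
    rw [← Path.Homotopic.Quotient.mk_symm, ← Path.Homotopic.Quotient.mk_trans,
      ← Path.Homotopic.Quotient.mk_trans]
    apply mem_shortLoops
    calc len (δ.trans (γ.trans δ.symm)) ≤ len δ + (len γ + len δ.symm) :=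
          (len_trans_le _ _).trans (add_le_add le_rfl (len_trans_le _ _))
      _ ≤ ENNReal.ofReal ((m - m') / 2) + (ENNReal.ofReal m' + ENNReal.ofReal ((m - m') / 2)) :=
          add_le_add hδ (add_le_add hγ ((len_symm_le δ).trans hδ))
      _ = ENNReal.ofReal m := by
          have h0 : 0 ≤ (m - m') / 2 := by
            have := dist_nonneg (x := x) (y := y)
            linarith
          rw [← ENNReal.ofReal_add hm' h0, ← ENNReal.ofReal_add h0 (by positivity)]
          congr 1
          ring
  | one => rw [map_one]; exact one_mem _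
  | mul a b _ _ ha hb => rw [map_mul]; exact mul_mem ha hb
  | inv a _ ha => rw [map_inv]; exact inv_mem ha

theorem margulis_le (hM : IsLength M) (x y : M) :
    margulis x ≤ margulis y + ENNReal.ofReal (2 * dist x y) := by
  refine sSup_le ?_
  rintro t ⟨m, rfl, hm⟩
  by_cases h : m ≤ 2 * dist x y
  · exact (ENNReal.ofReal_le_ofReal h).trans le_add_self
  · rw [not_le] at h
    refine ENNReal.le_of_forall_pos_le_add ?_
    intro ε hε _
    set e : ℝ := min (ε : ℝ) (m - 2 * dist x y) with he
    have he0 : 0 < e := lt_min (by exact_mod_cast hε) (by linarith)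
    have he1 : e ≤ ε := min_le_left _ _
    have he2 : e ≤ m - 2 * dist x y := min_le_right _ _
    have hm' : SubexpGrowth (shortLoops y (m - 2 * dist x y - e)) :=
      subexp_of_dist hM x y (by linarith) hm (by linarith)
    have h1 : ENNReal.ofReal (m - 2 * dist x y - e) ≤ margulis y :=
      le_sSup ⟨_, rfl, hm'⟩
    calc ENNReal.ofReal m = ENNReal.ofReal ((m - 2 * dist x y - e) + 2 * dist x y + e) := by
          congr 1
          ring
      _ ≤ ENNReal.ofReal (m - 2 * dist x y - e) + ENNReal.ofReal (2 * dist x y) +
          ENNReal.ofReal e := by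
          refine ENNReal.ofReal_add_le.trans (add_le_add ENNReal.ofReal_add_le le_rfl)
      _ ≤ margulis y + ENNReal.ofReal (2 * dist x y) + ε := by
          refine add_le_add (add_le_add h1 le_rfl) ?_
          rw [← ENNReal.ofReal_coe_nnreal]
          exact ENNReal.ofReal_le_ofReal he1

/-- Short loops generate a trivial group. -/
theorem subexp_small {ε : ℝ} (hε : 0 < ε)
    (hs : ∀ (x : M) (γ : Path x x), (∀ t, dist (γ t) x < ε) →
      Path.Homotopic γ (Path.refl x)) (x : M) : SubexpGrowth (shortLoops x (ε / 2)) := by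
  apply subexp_of_trivial
  have h : shortLoops x (ε / 2) = ⊥ := by
    rw [shortLoops, Subgroup.closure_eq_bot_iff]
    rintro g ⟨γ, hγ, rfl⟩
    have h1 : Path.Homotopic γ (Path.refl x) := by
      refine hs x γ fun t => ?_
      have h2 := dist_le_of_len γ (by linarith) hγ t 0
      rw [γ.source] at h2
      linarith
    have h3 : Path.Homotopic.Quotient.mk γ = Path.Homotopic.Quotient.mk (Path.refl x) :=
      Path.Homotopic.Quotient.eq.2 h1
    rw [h3]
    rfl
  intro g
  apply Subtype.ext
  have h5 : (g : FundamentalGroup M x) ∈ (⊥ : Subgroup (FundamentalGroup M x)) := h ▸ g.2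
  exact Subgroup.mem_bot.1 h5

/-! ## Loops in balls -/

/-- The property to be proved by subdivision. -/
def Good (c : M) (m K : ℝ) {x y : M} (P : Path.Homotopic.Quotient x y) : Prop :=
  ∀ (p : Path c x) (q : Path c y), len p ≤ ENNReal.ofReal K → len q ≤ ENNReal.ofReal K →
    FundamentalGroup.fromPath ((Path.Homotopic.Quotient.mk p).trans
      (P.trans (Path.Homotopic.Quotient.mk q).symm)) ∈ shortLoops c m

theorem Good.trans {c : M} {m K : ℝ} {x y z : M} {P : Path.Homotopic.Quotient x y}
    {Q : Path.Homotopic.Quotient y z} (hP : Good c m K P) (hQ : Good c m K Q)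
    (hy : ∃ p : Path c y, len p ≤ ENNReal.ofReal K) : Good c m K (P.trans Q) := by
  intro p q hp hq
  obtain ⟨r, hr⟩ := hy
  have h1 := hP p r hp hr
  have h2 := hQ r q hr hq
  have h3 := mul_mem h2 h1
  rw [FundamentalGroup.mul_def] at h3
  convert h3 using 1
  change (Path.Homotopic.Quotient.mk p).trans
      ((P.trans Q).trans (Path.Homotopic.Quotient.mk q).symm) =
    ((Path.Homotopic.Quotient.mk p).trans (P.trans (Path.Homotopic.Quotient.mk r).symm)).trans
      ((Path.Homotopic.Quotient.mk r).trans (Q.trans (Path.Homotopic.Quotient.mk q).symm))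
  simp only [Path.Homotopic.Quotient.trans_assoc]
  congr 2
  rw [← Path.Homotopic.Quotient.trans_assoc (Path.Homotopic.Quotient.mk r).symm,
    Path.Homotopic.Quotient.symm_trans, Path.Homotopic.Quotient.refl_trans]

theorem Good.of_len {c : M} {m K l : ℝ} {x y : M} (hK : 0 ≤ K) (hl : 0 ≤ l) (hm : 2 * K + l ≤ m)
    (σ : Path x y) (hσ : len σ ≤ ENNReal.ofReal l) :
    Good c m K (Path.Homotopic.Quotient.mk σ) := by
  intro p q hp hq
  rw [← Path.Homotopic.Quotient.mk_symm, ← Path.Homotopic.Quotient.mk_trans,
    ← Path.Homotopic.Quotient.mk_trans]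
  apply mem_shortLoops
  calc len (p.trans (σ.trans q.symm)) ≤ len p + (len σ + len q.symm) :=
        (len_trans_le _ _).trans (add_le_add le_rfl (len_trans_le _ _))
    _ ≤ ENNReal.ofReal K + (ENNReal.ofReal l + ENNReal.ofReal K) :=
        add_le_add hp (add_le_add hσ ((len_symm_le q).trans hq))
    _ = ENNReal.ofReal (2 * K + l) := by
        rw [← ENNReal.ofReal_add hl hK, ← ENNReal.ofReal_add hK (by positivity)]
        congr 1
        ring
    _ ≤ ENNReal.ofReal m := ENNReal.ofReal_le_ofReal hm

theorem good_of_cast {c : M} {m K : ℝ} {x y x' y' : M} (hx : x' = x) (hy : y' = y) (γ : Path x y)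
    (h : Good c m K (Path.Homotopic.Quotient.mk (γ.cast hx hy))) :
    Good c m K (Path.Homotopic.Quotient.mk γ) := by
  subst hx hy
  exact h

/-- Two paths in a small ball with the same ends are homotopic. -/
theorem homotopic_of_small {ε : ℝ}
    (hs : ∀ (x : M) (γ : Path x x), (∀ t, dist (γ t) x < ε) →
      Path.Homotopic γ (Path.refl x)) {x y : M} (γ σ : Path x y)
    (hγ : ∀ t, dist (γ t) x < ε) (hσ : ∀ t, dist (σ t) x < ε) :
    Path.Homotopic.Quotient.mk γ = Path.Homotopic.Quotient.mk σ := by
  have h1 : Path.Homotopic (γ.trans σ.symm) (Path.refl x) := by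
    refine hs x _ fun t => ?_
    rw [Path.trans_apply]
    split_ifs
    · exact hγ _
    · exact hσ _
  have h2 : (Path.Homotopic.Quotient.mk γ).trans (Path.Homotopic.Quotient.mk σ).symm =
      Path.Homotopic.Quotient.refl x := by
    rw [← Path.Homotopic.Quotient.mk_symm, ← Path.Homotopic.Quotient.mk_trans]
    exact Path.Homotopic.Quotient.eq.2 h1
  have h3 : ((Path.Homotopic.Quotient.mk γ).trans (Path.Homotopic.Quotient.mk σ).symm).trans
      (Path.Homotopic.Quotient.mk σ) = Path.Homotopic.Quotient.mk σ := by
    rw [h2, Path.Homotopic.Quotient.refl_trans]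
  rw [← h3, Path.Homotopic.Quotient.trans_assoc, Path.Homotopic.Quotient.symm_trans,
    Path.Homotopic.Quotient.trans_refl]

/-- A relation on the unit interval which holds for near points and is transitive holds for the
ends. -/
theorem unit_chain (R : unitInterval → unitInterval → Prop) {δ : ℝ} (hδ : 0 < δ)
    (h1 : ∀ s t : unitInterval, dist s t < δ → R s t) (h2 : ∀ s t u, R s t → R t u → R s u) :
    R 0 1 := by
  obtain ⟨n, hn⟩ := exists_nat_gt (1 / δ)
  have hn0 : (0 : ℝ) < n := lt_trans (by positivity) hn
  have hn' : (n : ℝ) ≠ 0 := hn0.ne'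
  have hd : 1 / (n : ℝ) < δ := by
    rw [div_lt_iff₀ hn0]
    rw [div_lt_iff₀ hδ] at hn
    linarith
  let s : ℕ → unitInterval := fun k => Set.projIcc 0 1 zero_le_one ((k : ℝ) / n)
  have key : ∀ k : ℕ, k ≤ n → R 0 (s k) := by
    intro k
    induction k with
    | zero =>
      intro _
      apply h1
      have : s 0 = 0 := by
        simp only [s]
        norm_num
      rw [this, dist_self]
      exact hδ
    | succ k ih =>
      intro hk
      refine h2 _ _ _ (ih (by omega)) (h1 _ _ ?_)
      have hk' : ((k + 1 : ℕ) : ℝ) ≤ n := by exact_mod_cast hk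
      push_cast at hk'
      rw [Subtype.dist_eq]
      simp only [s]
      rw [Set.projIcc_of_mem zero_le_one (x := (k : ℝ) / n)
          ⟨by positivity, by rw [div_le_one hn0]; linarith⟩,
        Set.projIcc_of_mem zero_le_one (x := ((k + 1 : ℕ) : ℝ) / n)
          ⟨by positivity, by rw [div_le_one hn0]; push_cast; linarith⟩]
      change dist ((k : ℝ) / n) (((k + 1 : ℕ) : ℝ) / n) < δ
      rw [Real.dist_eq, abs_sub_comm]
      push_cast
      rw [← sub_div, add_sub_cancel_left, abs_of_pos (by positivity)]
      exact hd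
  have h3 := key n le_rfl
  have h4 : s n = 1 := by
    simp only [s]
    rw [div_self hn']
    simp
  rwa [h4] at h3

theorem good_ball (hM : IsLength M) {ε : ℝ} (hε : 0 < ε)
    (hs : ∀ (x : M) (γ : Path x x), (∀ t, dist (γ t) x < ε) →
      Path.Homotopic γ (Path.refl x)) (c : M) {r K m : ℝ} (hrK : r ≤ K) (hKm : 2 * K < m)
    {x y : M} (γ : Path x y) (hγ : ∀ t, γ t ∈ Metric.ball c r) :
    Good c m K (Path.Homotopic.Quotient.mk γ) := by
  have hr : 0 < r := dist_nonneg.trans_lt (hγ 0)
  have hK : 0 ≤ K := by linarith
  have hp : ∀ t, ∃ p : Path c (γ t), len p ≤ ENNReal.ofReal K := by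
    intro t
    apply exists_path hM
    have := hγ t
    rw [Metric.mem_ball, dist_comm] at this
    linarith
  -- uniform continuity
  set e : ℝ := min (m - 2 * K) (ε / 2) with he
  have he0 : 0 < e := lt_min (by linarith) (by linarith)
  have huc : UniformContinuous γ := CompactSpace.uniformContinuous_of_continuous γ.continuous
  obtain ⟨δ, hδ, hδ'⟩ := Metric.uniformContinuous_iff.1 huc e he0
  have key := unit_chain
    (fun s t => Good c m K (Path.Homotopic.Quotient.mk (γ.subpath s t))) hδ
    (fun s t hst => by
      obtain ⟨σ, hσ⟩ := exists_path hM (γ s) (γ t) (hδ' hst)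
      have h1 : Path.Homotopic.Quotient.mk (γ.subpath s t) = Path.Homotopic.Quotient.mk σ := by
        apply homotopic_of_small hs
        · intro u
          have h2 : γ.subpath s t u ∈ range (γ.subpath s t) := mem_range_self u
          rw [Path.range_subpath] at h2
          obtain ⟨v, hv, hv'⟩ := h2
          rw [← hv']
          have h3 : dist v s < δ := by
            refine lt_of_le_of_lt ?_ hst
            rw [Subtype.dist_eq, Subtype.dist_eq, Real.dist_eq, Real.dist_eq]
            have h4 : (v : ℝ) ∈ uIcc (s : ℝ) (t : ℝ) := by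
              rcases le_total s t with h | h
              · rw [uIcc_of_le h] at hv
                rw [uIcc_of_le (by exact_mod_cast h)]
                exact ⟨hv.1, hv.2⟩
              · rw [uIcc_of_ge h] at hv
                rw [uIcc_of_ge (by exact_mod_cast h)]
                exact ⟨hv.1, hv.2⟩
            have := abs_sub_left_of_mem_uIcc h4
            rw [abs_sub_comm (s : ℝ) t]
            exact this
          have h5 := hδ' h3
          have h6 : e ≤ ε / 2 := min_le_right _ _
          linarith
        · intro u
          have h2 := dist_le_of_len σ he0.le hσ u 0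
          rw [σ.source] at h2
          have h6 : e ≤ ε / 2 := min_le_right _ _
          linarith
      rw [h1]
      exact Good.of_len hK he0.le (by
        have : e ≤ m - 2 * K := min_le_left _ _
        linarith) σ hσ)
    (fun s t u hst htu => by
      have h1 : Path.Homotopic.Quotient.mk (γ.subpath s u) =
          (Path.Homotopic.Quotient.mk (γ.subpath s t)).trans
            (Path.Homotopic.Quotient.mk (γ.subpath t u)) := by
        rw [← Path.Homotopic.Quotient.mk_trans]
        exact Path.Homotopic.Quotient.eq.2 ⟨(Path.Homotopy.subpathTransSubpath γ s t u).symm⟩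
      change Good c m K _
      rw [h1]
      exact Good.trans hst htu (hp t))
  change Good c m K (Path.Homotopic.Quotient.mk (γ.subpath 0 1)) at key
  rw [Path.subpath_zero_one] at key
  exact good_of_cast γ.source γ.target γ key

theorem subexp_ball (hM : IsLength M) {ε : ℝ} (hε : 0 < ε)
    (hs : ∀ (x : M) (γ : Path x x), (∀ t, dist (γ t) x < ε) →
      Path.Homotopic γ (Path.refl x)) (c : M) (r : ℝ)
    (h : ENNReal.ofReal (2 * r) < margulis c) (x : M) (hx : x ∈ Metric.ball c r) :
    SubexpGrowth (loopsIn (Metric.ball c r) x) := by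
  obtain ⟨t, ⟨m, rfl, hm⟩, htm⟩ := lt_sSup_iff.1 h
  have h1 : 2 * r < m := (ENNReal.ofReal_lt_ofReal_iff_of_nonneg (by
    have : 0 < r := dist_nonneg.trans_lt hx
    linarith)).1 htm
  have hcx : dist c x < r := by
    rw [dist_comm]
    exact hx
  obtain ⟨p, hp⟩ := exists_path hM c x hcx
  refine subexp_of_conj (conjHom (Path.Homotopic.Quotient.mk p)) (conjHom_injective _) _ _
    ?_ hm
  intro a ha
  induction ha using Subgroup.closure_induction with
  | mem g hg =>
    obtain ⟨γ, hγ, rfl⟩ := hg
    exact good_ball hM hε hs c le_rfl h1 γ hγ p p hp hp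
  | one => rw [map_one]; exact one_mem _
  | mul a b _ _ ha hb => rw [map_mul]; exact mul_mem ha hb
  | inv a _ ha => rw [map_inv]; exact inv_mem ha

end Main

/-- [MARG] -/
theorem marg : MargStatement := by
  intro M _ _ _ hM hs
  obtain ⟨ε, hε, hs⟩ := hs
  refine ⟨⟨inferInstance, fun x y => ?_⟩, ball_pathConnected hM, margulis_le hM, ?_, ?_⟩
  · obtain ⟨γ, _⟩ := hM x y 1 one_pos
    exact ⟨γ⟩
  · refine ⟨ε / 2, by linarith, fun x => ?_⟩
    exact le_sSup ⟨_, rfl, subexp_small hε hs x⟩
  · intro c r _ h x hx
    exact subexp_ball hM hε hs c r h x hx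

end

end Pool.Agent.Lib.MP_72b724_gt.H86
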